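import Pool.Agent.ArcVis.FiveCount

/-!
# The maximum number of edges of arc `k`-visibility graphs

`eMax k n` is `n.choose 2` for `n ≤ 5(k+1)+1` and `(k+1)(3n - 3(k+2)/2)` for `n ≥ 6(k+1)`;
for `n = 5(k+1)+s` in between it is at least `n.choose 2 - 3 (s.choose 2)` and at most the minimum of
`n.choose 2` and `(k+1)(3n - 3(k+2)/2)`.
-/

set_option autoImplicit false

namespace Pool.Agent.Results.MP_f73b56_co.EdgeMaximum

open Pool.Agent.ArcVis

/-- The value of `e_k(n)` outside the window `5(k+1)+1 < n < 6(k+1)` and bounds inside it. -/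
theorem result (k n : ℕ) :
    (n ≤ 5 * (k + 1) + 1 → eMax k n = n.choose 2) ∧
    (6 * (k + 1) ≤ n → 2 * eMax k n + 3 * (k + 1) * (k + 2) = 6 * (k + 1) * n) ∧
    (∀ s : ℕ, s ≤ k + 1 → n = 5 * (k + 1) + s →
      n.choose 2 ≤ eMax k n + 3 * s.choose 2 ∧ eMax k n ≤ n.choose 2 ∧
        2 * eMax k n + 3 * (k + 1) * (k + 2) ≤ 6 * (k + 1) * n) := by
  refine ⟨fun h => eMax_small k h, fun h => ?_, ?_⟩
  · have h1 := eMax_upper (k := k) (n := n) (by omega)
    have h2 := eMax_large_lower k n h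
    nlinarith
  · rintro s hs rfl
    refine ⟨eMax_window k s hs, eMax_le_choose _ _, ?_⟩
    have h1 := eMax_upper (k := k) (n := 5 * (k + 1) + s) (by omega)
    nlinarith

end Pool.Agent.Results.MP_f73b56_co.EdgeMaximum
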